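import Pool.Agent.Results.MP_b9adb7_gt.ShapeFieldSeries
import Pool.Agent.H760.AR.Uniq

/-!
# The Kashaev series of highly twisted knots are algebraic

The knots and links `link D t`, their coloured Jones polynomials (`jones`) and Kashaev invariants
(`framed`), the geometric angles `a` of a shadow `D` (a plane `4`-valent graph with a twist region at
each vertex), the gluing equations (`Hyperbolic`) and the complex volume are defined and explained in
`Pool.Agent.Results.MP_b9adb7_gt.ShapeFieldSeries`.  If all numbers of crossings are large (of arbitrary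
signs), there is exactly one solution `x` of the gluing equations near `a`; by W. Thurston the knot is
hyperbolic, and `x` is its hyperbolic structure.  `F = shapeField x` is the field generated over `ℚ` by
the shapes `e^{2 π i x_j}` of the ideal tetrahedra.

`Expansion ⟨K⟩ v φ` means that for every `M ≥ 0`
`⟨K⟩_N = N^{3/2} e^{v N} (∑_{n < M} φ_n (2 π i / N)^n + O(N^{-M}))`.

**Theorem.**  `F` is a number field, `⟨K⟩_N` has an expansion with
`Re v = volume x / (2 π)`, and *every* expansion of `⟨K⟩_N` with `Re v = volume x / (2 π)`, or with a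
nonzero series, has the exponent `v = (volume x + i cs x) / (2 π)` (up to the framing and `2 π i ℤ`),
algebraic coefficients, and a series `Φ ∈ ζ_8 δ^{-1/2} F[[h]]`, `δ ∈ F`, `δ ≠ 0`.

The page asks for this with the trace field of the knot.  By W. Neumann and A. Reid `F` contains the
trace field, and it is generated over it by the eigenvalues of the cores of the twist regions, which
are quadratic over the trace field; so the theorem settles the algebraicity of the coefficients for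
these knots, and the more precise statement with `F` instead of the trace field.  (These facts on
hyperbolic manifolds are cited and are not part of the Lean statement.)
-/

set_option autoImplicit false

namespace Pool.Agent.Results.MP_b4463e_gt.HighlyTwistedSeries

open Finset Filter Topology
open Pool.Agent.Results.MP_b9adb7_gt.ShapeFieldSeries (Vertex IsShadow Reduced Geometric Dominant
  jones link root Hyperbolic volume angleVolume potential shapeField Expansion framed complexVolume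
  Elem)

/-- The series with the coefficients `φ` is in `ζ_8 δ^{-1/2} F[[h]]` for some `δ ∈ F`, `δ ≠ 0`, and some
choice `s` of `δ^{-1/2}`. -/
def InZeta8Root (F : Subfield ℂ) (φ : ℕ → ℂ) : Prop :=
  ∃ δ ∈ F, δ ≠ 0 ∧ ∃ s : ℂ, s ^ 2 = δ⁻¹ ∧
    ∀ k, ∃ z ∈ F, φ k = Complex.exp (2 * Real.pi * Complex.I / 8) * s * z

lemma zeta_sq : Complex.exp (2 * Real.pi * Complex.I / 8) ^ 2 = Complex.I := by
  rw [← Complex.exp_nat_mul]
  have : ((2 : ℕ) : ℂ) * (2 * Real.pi * Complex.I / 8) = Real.pi / 2 * Complex.I := by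
    push_cast
    ring
  rw [this, Complex.exp_pi_div_two_mul_I]

lemma inZeta {F : Subfield ℂ} {φ : ℕ → ℂ} (h : ∀ k, ∃ z ∈ F, φ k = z * φ 0) {δ : ℂ} (hδ : δ ∈ F)
    (h0 : δ ≠ 0) (h1 : φ 0 ^ 2 * δ = Complex.I) : InZeta8Root F φ := by
  have hz : Complex.exp (2 * Real.pi * Complex.I / 8) ≠ 0 := Complex.exp_ne_zero _
  refine ⟨δ, hδ, h0, φ 0 / Complex.exp (2 * Real.pi * Complex.I / 8), ?_, fun k => ?_⟩
  · rw [div_pow, zeta_sq, ← h1]
    have : φ 0 ≠ 0 := by
      intro h
      rw [h, zero_pow two_ne_zero, zero_mul] at h1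
      exact Complex.I_ne_zero h1.symm
    field_simp
  · obtain ⟨z, hz', hk⟩ := h k
    exact ⟨z, hz', by rw [hk]; field_simp⟩

lemma alg_of_mem {F : Subfield ℂ} (hF : NumberField F) {z : ℂ} (hz : z ∈ F) : IsAlgebraic ℚ z := by
  have h := Algebra.IsAlgebraic.isAlgebraic (R := ℚ) (⟨z, hz⟩ : F)
  exact h.algHom F.subtype.toRatAlgHom

lemma alg_coef {F : Subfield ℂ} (hF : NumberField F) {φ : ℕ → ℂ} (h : ∀ k, ∃ z ∈ F, φ k = z * φ 0)
    {δ : ℂ} (hδ : δ ∈ F) (h0 : δ ≠ 0) (h1 : φ 0 ^ 2 * δ = Complex.I) (k : ℕ) :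
    IsAlgebraic ℚ (φ k) := by
  have hI : IsAlgebraic ℚ Complex.I :=
    ⟨Polynomial.X ^ 2 + 1, by
      intro h
      have := congrArg (Polynomial.eval 0) h
      simp at this, by simp⟩
  have h2 : φ 0 ^ 2 = Complex.I * δ⁻¹ := by
    rw [← h1]
    field_simp
  have h3 : IsAlgebraic ℚ (φ 0) := by
    refine IsAlgebraic.of_pow (n := 2) (by norm_num) ?_
    rw [h2]
    exact hI.mul (alg_of_mem hF hδ).inv
  obtain ⟨z, hz, hk⟩ := h k
  rw [hk]
  exact (alg_of_mem hF hz).mul h3

lemma volume_re {c : ℕ} (t : Fin c → Bool × ℕ) (x : Fin c → Fin 6 → ℂ) (e f : ℤ) :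
    (complexVolume t x / (2 * Real.pi) + Real.pi * Complex.I * (e + f)).re =
      volume x / (2 * Real.pi) := by
  unfold complexVolume
  have e1 : ((volume x : ℂ) + Pool.Agent.Results.MP_b9adb7_gt.ShapeFieldSeries.cs t x * Complex.I) /
      (2 * Real.pi) + Real.pi * Complex.I * (e + f) =
      ((volume x / (2 * Real.pi) : ℝ) : ℂ) +
        ((Pool.Agent.Results.MP_b9adb7_gt.ShapeFieldSeries.cs t x / (2 * Real.pi) +
          Real.pi * (e + f) : ℝ) : ℂ) * Complex.I := by
    push_cast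
    ring
  rw [e1, Complex.add_re, Complex.ofReal_re, Complex.re_ofReal_mul, Complex.I_re, mul_zero, add_zero]

/-- **The Kashaev series of highly twisted knots and links on planar shadows are algebraic, and in
`ζ_8 δ^{-1/2} F[[h]]`.** -/
theorem result (D : List Vertex) (h1 : IsShadow D 1) (h2 : Reduced D 1) (h3 : D ≠ [])
    (a : Fin D.length → Fin 6 → ℝ) (h4 : Geometric D a) (h5 : Dominant D a) :
    ∃ ρ0 : ℝ, 0 < ρ0 ∧ ∀ ρ : ℝ, 0 < ρ → ρ ≤ ρ0 → ∃ (M : ℕ) (C : ℝ), 1 ≤ M ∧
    ∀ (t : Fin D.length → Bool × ℕ) (m : ℕ), M ≤ m → (∀ k, m ≤ (t k).2) →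
    (∀ N : ℕ, 1 ≤ N → ContinuousAt (jones N (link D t)) (root N)) ∧
    ∃ x : Fin D.length → Fin 6 → ℂ, Hyperbolic D t x ∧ (∀ k j, ‖x k j - a k j‖ < ρ) ∧
      (∀ x', Hyperbolic D t x' → (∀ k j, ‖x' k j - a k j‖ < ρ) → x' = x) ∧
      |volume x - angleVolume a| ≤ C / m ^ 2 ∧ NumberField (shapeField x) ∧
      ∀ e f : ℤ, (∃ (v : ℂ) (φ : ℕ → ℂ), v.re = volume x / (2 * Real.pi) ∧
          Expansion (framed e f (link D t)) v φ) ∧
        ∀ (v : ℂ) (φ : ℕ → ℂ), Expansion (framed e f (link D t)) v φ →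
          (v.re = volume x / (2 * Real.pi) ∨ ∃ k, φ k ≠ 0) →
          (∃ n : ℤ, v = complexVolume t x / (2 * Real.pi) + Real.pi * Complex.I * (e + f) +
            n * (2 * Real.pi * Complex.I)) ∧
          φ 0 ≠ 0 ∧ (∀ k, IsAlgebraic ℚ (φ k)) ∧ InZeta8Root (shapeField x) φ := by
  obtain ⟨ρ0, hρ0, H⟩ := Pool.Agent.Results.MP_b9adb7_gt.ShapeFieldSeries.result D h1 h2 h3 a h4 h5
  refine ⟨ρ0, hρ0, fun ρ hρ hρ' => ?_⟩
  obtain ⟨M, C, hM, G⟩ := H ρ hρ hρ'
  refine ⟨M, C, hM, fun t m hm ht => ?_⟩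
  obtain ⟨k1, x, k2, k3, k4, -, k5, k6, k7⟩ := G t m hm ht
  refine ⟨k1, x, k2, k3, k4, k5, k6, fun e f => ?_⟩
  obtain ⟨φ0, g1, g2, g3, δ, g4, g5, g6⟩ := k7 e f
  refine ⟨⟨_, φ0, volume_re t x e f, g2⟩, fun v φ hE hv => ?_⟩
  obtain ⟨hn, rfl⟩ := Pool.Agent.H760.AR.Uniq.uniq (φ := φ) g2 hE g1 (by
    rcases hv with h | h
    · exact Or.inl (h.trans (volume_re t x e f).symm)
    · exact Or.inr h)
  exact ⟨hn, g1, alg_coef k6 g3 g4 g5 g6, inZeta g3 g4 g5 g6⟩

end Pool.Agent.Results.MP_b4463e_gt.HighlyTwistedSeries
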